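import Mathlib
import Pool.Agent.Helper55.JS.Walks
import Pool.Agent.Helper91.JS.P3

/-! Project JS, piece 8 (helper96) -/

set_option autoImplicit false

namespace Pool.Agent.Helper55.JS

open Finset

variable {V : Type} [Fintype V] [DecidableEq V] {G : SimpleGraph V}

/-- JS-8a -/
theorem pos_bound {J k : ℕ} (hk : 2 ≤ k) (hJ : k ≤ J) {δ : ℝ} {X1 X2 : V}
    {Qs : Finset (Fin (J + 1) → V)} (hQs : Qs ⊆ wk G J X1 X2)
    (hs : ∀ Q ∈ Qs, ∀ (a : ℕ) (h : a + k ≤ J),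
      Spread G k δ (Q ⟨a, by omega⟩) (Q ⟨a + k, by omega⟩))
    (hδ0 : 0 ≤ δ)
    (i : Fin (J + 1)) (hi : i ≠ 0) (hi' : i ≠ Fin.last J) (z : V) :
    ((Qs.filter fun Q => Q i = z).card : ℝ) ≤ δ * W G J X1 X2 := by
  classical
  have h1 : 1 ≤ (i : ℕ) := Nat.one_le_iff_ne_zero.2 (fun h => hi (Fin.ext h))
  have h2 : (i : ℕ) < J := by
    have h3 : (i : ℕ) ≠ J := fun h => hi' (Fin.ext h)
    have := i.2
    omega
  obtain ⟨a, ha1, ha2, ha3⟩ : ∃ a : ℕ, a < (i : ℕ) ∧ (i : ℕ) < a + k ∧ a + k ≤ J := by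
    rcases le_or_gt ((i : ℕ) - 1) (J - k) with h | h
    · exact ⟨i - 1, by omega, by omega, by omega⟩
    · exact ⟨J - k, by omega, by omega, by omega⟩
  set fib : V × V → Finset (Fin (J + 1) → V) := fun xy =>
    (Qs.filter fun Q => Q i = z).filter fun Q =>
      (Q ⟨a, by omega⟩, Q ⟨a + k, by omega⟩) = xy with hfib
  have hcard : (Qs.filter fun Q => Q i = z).card = ∑ xy : V × V, (fib xy).card :=
    card_eq_sum_card_fiberwise (fun Q _ => mem_coe.2 (mem_univ _))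
  have hbound : ∀ xy : V × V, ((fib xy).card : ℝ) ≤
      δ * (W G a X1 xy.1 * W G k xy.1 xy.2 * W G (J - (a + k)) xy.2 X2) := by
    rintro ⟨x, y⟩
    rcases (fib (x, y)).eq_empty_or_nonempty with he | ⟨Q, hQ⟩
    · rw [he, card_empty, Nat.cast_zero]
      exact mul_nonneg hδ0 (mul_nonneg (mul_nonneg (W_nonneg _ _ _) (W_nonneg _ _ _))
        (W_nonneg _ _ _))
    · have hQ1 := (mem_filter.1 hQ).2
      have hQ2 := (mem_filter.1 (mem_filter.1 hQ).1).1
      have hsp := hs Q hQ2 a ha3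
      rw [Prod.mk.injEq] at hQ1
      rw [hQ1.1, hQ1.2] at hsp
      have hle := hsp.le (i - a) z (by omega) (by omega)
      have hsub : fib (x, y) ⊆ (wk G J X1 X2).filter fun p => p ⟨a, by omega⟩ = x ∧
          p ⟨i, by omega⟩ = z ∧ p ⟨a + k, by omega⟩ = y := by
        intro P hP
        have hP1 := (mem_filter.1 hP).2
        have hP2 := mem_filter.1 (mem_filter.1 hP).1
        rw [Prod.mk.injEq] at hP1
        exact mem_filter.2 ⟨hQs hP2.1, hP1.1, hP2.2, hP1.2⟩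
      have h3 := card_wk_three (G := G) (m := J) (a := a) (b := i) (c := a + k) (by omega)
        (by omega) ha3 X1 X2 x z y
      have h4 : ((fib (x, y)).card : ℝ) ≤
          W G a X1 x * W G (i - a) x z * W G (a + k - i) z y * W G (J - (a + k)) y X2 :=
        le_trans (by exact_mod_cast card_le_card hsub) h3
      have h5 : k - ((i : ℕ) - a) = a + k - i := by omega
      rw [h5] at hle
      calc ((fib (x, y)).card : ℝ)
          ≤ W G a X1 x * (W G (i - a) x z * W G (a + k - i) z y) * W G (J - (a + k)) y X2 := by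
            rw [← mul_assoc (W G a X1 x)]; exact h4
        _ ≤ W G a X1 x * (δ * W G k x y) * W G (J - (a + k)) y X2 :=
            mul_le_mul_of_nonneg_right (mul_le_mul_of_nonneg_left hle (W_nonneg _ _ _))
              (W_nonneg _ _ _)
        _ = δ * (W G a X1 x * W G k x y * W G (J - (a + k)) y X2) := by ring
  have hW : W G J X1 X2 =
      ∑ xy : V × V, W G a X1 xy.1 * W G k xy.1 xy.2 * W G (J - (a + k)) xy.2 X2 := by
    have e1 : J = a + (k + (J - (a + k))) := by omega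
    have e2 : W G J X1 X2 = W G (a + (k + (J - (a + k)))) X1 X2 := by rw [← e1]
    rw [e2, W_add, Fintype.sum_prod_type]
    refine sum_congr rfl fun x _ => ?_
    rw [W_add, mul_sum]
    exact sum_congr rfl fun y _ => by ring
  rw [hcard, Nat.cast_sum, hW, mul_sum]
  exact sum_le_sum fun xy _ => hbound xy

omit [Fintype V] in
lemma P8.inn_card {J : ℕ} (Q : Fin (J + 1) → V) :
    ((univ.filter fun i : Fin (J + 1) => i ≠ 0 ∧ i ≠ Fin.last J).image Q).card ≤ J := by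
  refine card_image_le.trans ?_
  have h : (univ.filter fun i : Fin (J + 1) => i ≠ 0 ∧ i ≠ Fin.last J) ⊆ univ.erase 0 := by
    intro i hi
    exact mem_erase.2 ⟨(mem_filter.1 hi).2.1, mem_univ _⟩
  refine (card_le_card h).trans ?_
  rw [card_erase_of_mem (mem_univ _), card_univ, Fintype.card_fin]
  omega

/-- JS-8b -/
theorem choose_Q {J t : ℕ} {X1 X2 : V} {δ : ℝ} {Qs : Finset (Fin (J + 1) → V)}
    (hW : 0 < W G J X1 X2) (hc : 3 / 4 * W G J X1 X2 ≤ (Qs.card : ℝ)) (hδ0 : 0 ≤ δ)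
    (hδ : (t : ℝ) * (J : ℝ) ^ 2 * δ ≤ 1 / 2)
    (hp : ∀ (i : Fin (J + 1)), i ≠ 0 → i ≠ Fin.last J → ∀ z,
      ((Qs.filter fun Q => Q i = z).card : ℝ) ≤ δ * W G J X1 X2) :
    ∃ Q : Fin t → (Fin (J + 1) → V), (∀ a, Q a ∈ Qs) ∧ ∀ a b, a ≠ b →
      ∀ i i' : Fin (J + 1), i ≠ 0 → i ≠ Fin.last J → i' ≠ 0 → i' ≠ Fin.last J →
        Q a i ≠ Q b i' := by
  classical
  have key : ∀ F : Finset V, F.card ≤ t * J → ∃ Q ∈ Qs,
      Disjoint ((univ.filter fun i : Fin (J + 1) => i ≠ 0 ∧ i ≠ Fin.last J).image Q) F := by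
    intro F hF
    by_contra hcon
    push Not at hcon
    have hsub : Qs ⊆ (univ.filter fun i : Fin (J + 1) => i ≠ 0 ∧ i ≠ Fin.last J).biUnion
        fun i => F.biUnion fun z => Qs.filter fun Q => Q i = z := by
      intro Q hQ
      obtain ⟨z, hz1, hz2⟩ := not_disjoint_iff.1 (hcon Q hQ)
      obtain ⟨i, hi1, hi2⟩ := mem_image.1 hz1
      exact mem_biUnion.2 ⟨i, hi1, mem_biUnion.2 ⟨z, hz2, mem_filter.2 ⟨hQ, hi2⟩⟩⟩
    have hcJ : (univ.filter fun i : Fin (J + 1) => i ≠ 0 ∧ i ≠ Fin.last J).card ≤ J := by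
      have h : (univ.filter fun i : Fin (J + 1) => i ≠ 0 ∧ i ≠ Fin.last J) ⊆ univ.erase 0 := by
        intro i hi
        exact mem_erase.2 ⟨(mem_filter.1 hi).2.1, mem_univ _⟩
      refine (card_le_card h).trans ?_
      rw [card_erase_of_mem (mem_univ _), card_univ, Fintype.card_fin]
      omega
    have h1 : (Qs.card : ℝ) ≤ ∑ i ∈ univ.filter (fun i : Fin (J + 1) => i ≠ 0 ∧ i ≠ Fin.last J),
        ∑ z ∈ F, ((Qs.filter fun Q => Q i = z).card : ℝ) := by
      have := (card_le_card hsub).trans card_biUnion_le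
      have h2 : (Qs.card : ℝ) ≤ ∑ i ∈ univ.filter (fun i : Fin (J + 1) => i ≠ 0 ∧ i ≠ Fin.last J),
          ((F.biUnion fun z => Qs.filter fun Q => Q i = z).card : ℝ) := by exact_mod_cast this
      refine h2.trans (sum_le_sum fun i _ => ?_)
      exact_mod_cast card_biUnion_le
    have hδW : 0 ≤ δ * W G J X1 X2 := mul_nonneg hδ0 hW.le
    have h3 : ∑ i ∈ univ.filter (fun i : Fin (J + 1) => i ≠ 0 ∧ i ≠ Fin.last J),
        ∑ z ∈ F, ((Qs.filter fun Q => Q i = z).card : ℝ) ≤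
        (J : ℝ) * ((t * J : ℕ) : ℝ) * (δ * W G J X1 X2) := by
      calc _ ≤ ∑ i ∈ univ.filter (fun i : Fin (J + 1) => i ≠ 0 ∧ i ≠ Fin.last J),
            ((t * J : ℕ) : ℝ) * (δ * W G J X1 X2) := by
            refine sum_le_sum fun i hi => ?_
            have hi2 := (mem_filter.1 hi).2
            calc ∑ z ∈ F, ((Qs.filter fun Q => Q i = z).card : ℝ)
                ≤ ∑ _z ∈ F, δ * W G J X1 X2 := sum_le_sum fun z _ => hp i hi2.1 hi2.2 z
              _ = (F.card : ℝ) * (δ * W G J X1 X2) := by rw [sum_const, nsmul_eq_mul]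
              _ ≤ _ := mul_le_mul_of_nonneg_right (by exact_mod_cast hF) hδW
        _ = ((univ.filter (fun i : Fin (J + 1) => i ≠ 0 ∧ i ≠ Fin.last J)).card : ℝ) *
            (((t * J : ℕ) : ℝ) * (δ * W G J X1 X2)) := by rw [sum_const, nsmul_eq_mul]
        _ ≤ (J : ℝ) * (((t * J : ℕ) : ℝ) * (δ * W G J X1 X2)) :=
            mul_le_mul_of_nonneg_right (by exact_mod_cast hcJ)
              (mul_nonneg (Nat.cast_nonneg _) hδW)
        _ = _ := by ring
    have h4 : (J : ℝ) * ((t * J : ℕ) : ℝ) * (δ * W G J X1 X2) =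
        (t : ℝ) * (J : ℝ) ^ 2 * δ * W G J X1 X2 := by push_cast; ring
    have h5 : (t : ℝ) * (J : ℝ) ^ 2 * δ * W G J X1 X2 ≤ 1 / 2 * W G J X1 X2 :=
      mul_le_mul_of_nonneg_right hδ hW.le
    linarith
  obtain ⟨Q, hQ1, hQ2⟩ := greedy (t := t) (m := J) (fun _ : Fin t => (↑Qs : Set (Fin (J + 1) → V)))
    (fun Q => (univ.filter fun i : Fin (J + 1) => i ≠ 0 ∧ i ≠ Fin.last J).image Q)
    (fun _ Q _ => P8.inn_card Q)
    (fun _ F hF => by
      obtain ⟨Q, hQ, hd⟩ := key F hF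
      exact ⟨Q, mem_coe.2 hQ, hd⟩)
  refine ⟨Q, fun a => mem_coe.1 (hQ1 a), fun a b hab i i' h1 h2 h3 h4 he => ?_⟩
  have hd := hQ2 a b hab
  rw [Finset.disjoint_left] at hd
  exact hd (mem_image.2 ⟨i, mem_filter.2 ⟨mem_univ _, h1, h2⟩, rfl⟩)
    (mem_image.2 ⟨i', mem_filter.2 ⟨mem_univ _, h3, h4⟩, he.symm⟩)

end Pool.Agent.Helper55.JS
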